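import Pool.Agent.helper30.QP.SpecK

/-!
# Row HHC: the coefficients of the sum over the lower neighbours
-/

set_option autoImplicit false

open Polynomial Pool.Agent.helper7.IG

noncomputable section

namespace Pool.Agent.QP

theorem HHC_geom (l : ℕ) (hl : Odd l) (ω : kkˣ) (hω : IsPrimitiveRoot ω l) (t : ℤ) :
    ∑ j ∈ Finset.range l, (((ω ^ j) ^ t : kkˣ) : kk) = if (l : ℤ) ∣ t then 1 else 0 := by
  have e : ∀ j : ℕ, (((ω ^ j) ^ t : kkˣ) : kk) = (((ω ^ t : kkˣ)) : kk) ^ j := by
    intro j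
    rw [← zpow_natCast, ← zpow_mul, mul_comm, zpow_mul, zpow_natCast, Units.val_pow_eq_pow_val]
  rw [Finset.sum_congr rfl fun j _ => e j]
  split_ifs with h
  · rw [(hω.zpow_eq_one_iff_dvd t).mpr h, Units.val_one]
    simp only [one_pow, Finset.sum_const, Finset.card_range, nsmul_eq_mul, mul_one]
    obtain ⟨k, rfl⟩ := hl
    have h2 : (2 : kk) = 0 := CharTwo.two_eq_zero
    push_cast
    linear_combination (k : kk) * h2
  · have h1 : ((ω ^ t : kkˣ) : kk) ≠ 1 := by
      intro h2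
      apply h
      rw [← hω.zpow_eq_one_iff_dvd]
      exact Units.ext h2
    have h3 : ((ω ^ t : kkˣ) : kk) ^ l = 1 := by
      rw [← Units.val_pow_eq_pow_val, ← zpow_natCast, ← zpow_mul, mul_comm, zpow_mul, zpow_natCast,
        hω.pow_eq_one, one_zpow, Units.val_one]
    have h4 := geom_sum_mul ((ω ^ t : kkˣ) : kk) l
    rw [h3, sub_self] at h4
    exact (mul_eq_zero.mp h4).resolve_right (sub_ne_zero.mpr h1)

theorem HHC (hANF : ANF_stmt) : HHC_stmt := by
  classical
  intro l B F hl hl2 hB hlB m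
  obtain ⟨b, rfl⟩ := hlB
  have hlo : Odd l := hl.odd_of_ne_two hl2
  have hB0 : l * b ≠ 0 := by
    intro h
    rw [h] at hB
    exact absurd hB (by decide)
  have hb0 : b ≠ 0 := right_ne_zero_of_mul hB0
  have hl0 : l ≠ 0 := hl.ne_zero
  obtain ⟨ω, hω⟩ := exists_primitive l hlo
  obtain ⟨hAN, -⟩ := hANF l (l * b) hl hB0
  have hω' : IsPrimitiveRoot (ω : kk) l := IsPrimitiveRoot.coe_units_iff.mpr hω
  have hset : (AN l (l * b)).erase (l * (l * b), 1) =
      (Finset.range l).image fun j => ((b, ω ^ j) : Vx) := by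
    ext u
    rw [Finset.mem_erase, hAN, Finset.mem_image]
    constructor
    · rintro ⟨hu, h | h⟩
      · exfalso
        apply hu
        refine Prod.ext h.1 ?_
        rw [h.2]
        exact one_pow l
      · obtain ⟨h1, h2⟩ := h
        have h3 : u.1 = b := (Nat.eq_of_mul_eq_mul_left hl.pos h1).symm
        have h4 : (u.2 : kk) ^ l = 1 := by
          rw [← Units.val_pow_eq_pow_val, h2]
          rfl
        have : NeZero l := ⟨hl0⟩
        obtain ⟨i, hi, hi'⟩ := hω'.eq_pow_of_pow_eq_one h4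
        refine ⟨i, Finset.mem_range.mpr hi, Prod.ext h3.symm ?_⟩
        apply Units.ext
        rw [Units.val_pow_eq_pow_val]
        exact hi'
    · rintro ⟨j, -, rfl⟩
      refine ⟨?_, Or.inr ⟨rfl, ?_⟩⟩
      · intro h
        have h1 : b = l * (l * b) := congrArg Prod.fst h
        have h2 : 2 ≤ l := hl.two_le
        have h3 : 0 < b := Nat.pos_of_ne_zero hb0
        nlinarith [Nat.mul_le_mul h2 (Nat.mul_le_mul h2 (le_refl b))]
      · show (ω ^ j) ^ l = 1
        rw [← pow_mul, mul_comm, pow_mul, hω.pow_eq_one, one_pow]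
  unfold HU
  rw [hset, Finset.sum_image]
  swap
  · intro i hi j hj hij
    have h1 : ω ^ i = ω ^ j := congrArg Prod.snd hij
    exact hω.pow_inj (Finset.mem_range.mp hi) (Finset.mem_range.mp hj) h1
  have hcoeff : (∑ j ∈ Finset.range l, sig b (ω ^ j) F).coeff m =
      if (b : ℤ) ∣ m then (if (l : ℤ) ∣ m / b then 1 else 0) * F.coeff (m / b) else 0 := by
    rw [HahnSeries.coeff_sum]
    rw [Finset.sum_congr rfl fun j _ => sig_coeff hb0 (ω ^ j) F m]
    split_ifs with h1 h2
    · rw [← Finset.sum_mul, HHC_geom l hlo ω hω, if_pos h2]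
    · rw [← Finset.sum_mul, HHC_geom l hlo ω hω, if_neg h2]
    · rw [Finset.sum_const_zero]
  have hbz : (b : ℤ) ≠ 0 := by exact_mod_cast hb0
  have hlz : (l : ℤ) ≠ 0 := by exact_mod_cast hl0
  show (sig (l * b) 1 F + ∑ j ∈ Finset.range l, sig b (ω ^ j) F).coeff m = _
  rw [HahnSeries.coeff_add, hcoeff, sig_coeff hB0]
  by_cases h : ((l * b : ℕ) : ℤ) ∣ m
  · rw [if_pos h, if_pos h]
    obtain ⟨n, rfl⟩ := h
    have e1 : ((l * b : ℕ) : ℤ) * n / ((l * b : ℕ) : ℤ) = n :=
      Int.mul_ediv_cancel_left _ (by exact_mod_cast hB0)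
    have e2 : ((l * b : ℕ) : ℤ) * n = (b : ℤ) * (l * n) := by
      push_cast
      ring
    have e3 : ((l * b : ℕ) : ℤ) * n / (b : ℤ) = l * n := by
      rw [e2]
      exact Int.mul_ediv_cancel_left _ hbz
    rw [e1, e3, if_pos (e2 ▸ dvd_mul_right _ _), if_pos (dvd_mul_right _ _), one_mul, one_zpow,
      Units.val_one, one_mul, add_comm]
  · rw [if_neg h, if_neg h, zero_add]
    split_ifs with h1 h2
    · exfalso
      apply h
      obtain ⟨t, rfl⟩ := h1
      rw [Int.mul_ediv_cancel_left _ hbz] at h2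
      obtain ⟨s, rfl⟩ := h2
      exact ⟨s, by push_cast; ring⟩
    · rw [zero_mul]
    · rfl

end Pool.Agent.QP
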